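import Pool.Agent.Helper23.MV.StP
import Pool.Agent.Helper42.GK.M_TUP

/-!
# Project MV, module TG: block tuples in mean square over the good frequencies
-/

set_option autoImplicit false

namespace Pool.Agent.Helper42.MV

open Pool.Agent.Helper23.MV
open Pool.Agent.Helper42.GK
open Pool.Agent.Helper23.GK (AA PP cmu blk2 StMea StSu0 StSu2 StSu3)
open Finset ArithmeticFunction MeasureTheory
open Pool.Agent.Helper2.MR (ch)

/-- the set of integration -/
def tgR (c : PCh) (η : ℝ) (X : ℕ) (a T : ℝ) : Set ℝ :=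
  {t : ℝ | a ≤ |t| ∧ |t| ≤ T ∧ ∀ ρ ∈ ZF c (2 * η) X, a ≤ |ρ.im - t|}

theorem tgR_meas (c : PCh) (η : ℝ) (X : ℕ) (a T : ℝ) : MeasurableSet (tgR c η X a T) := by
  apply IsClosed.measurableSet
  have h : tgR c η X a T = tupR a T ∩ ⋂ ρ ∈ ZF c (2 * η) X, {t : ℝ | a ≤ |ρ.im - t|} := by
    ext t
    simp [tgR, tupR, and_assoc]
  rw [h]
  apply IsClosed.inter
  · apply IsClosed.inter
    · exact isClosed_le continuous_const continuous_abs
    · exact isClosed_le continuous_abs continuous_const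
  · exact isClosed_biInter (fun ρ _ =>
      isClosed_le continuous_const (continuous_abs.comp (continuous_const.sub continuous_id)))

theorem tgR_sub (c : PCh) (η : ℝ) (X : ℕ) (a T : ℝ) : tgR c η X a T ⊆ tupR a T :=
  fun _ ht => ⟨ht.1, ht.2.1⟩

theorem tg_mono {q : ℕ} (χ : DirichletCharacter ℂ q) (e : Fin 4 → ℕ) (a T : ℝ) (G : Set ℝ)
    (hG : G ⊆ tupR a T) :
    ∫ t in G, ‖PP χ e t‖ ^ 2 ≤ ∫ t in tupR a T, ‖PP χ e t‖ ^ 2 := by
  apply setIntegral_mono_set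
  · exact tup_int _ ((tup_cont_PP χ e).norm.pow 2) a T
  · exact Filter.Eventually.of_forall (fun t => by positivity)
  · exact hG.eventuallyLE

theorem tg_sup {q : ℕ} (χ : DirichletCharacter ℂ q) (e : Fin 4 → ℕ) (i0 : Fin 4) (G : Set ℝ)
    (hGm : MeasurableSet G) (a T δ M : ℝ) (hGs : G ⊆ tupR a T)
    (hT : 0 ≤ T) (hδ : ∀ t ∈ G, ‖AA (tupCf χ i0) (e i0) t‖ ≤ δ)
    (hM : ∫ t in (-T)..T, ∏ i ∈ univ.erase i0, ‖AA (tupCf χ i) (e i) t‖ ^ 2 ≤ M) :
    ∫ t in G, ‖PP χ e t‖ ^ 2 ≤ δ ^ 2 * M := by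
  have hc : Continuous (fun t : ℝ => ∏ i ∈ univ.erase i0, ‖AA (tupCf χ i) (e i) t‖ ^ 2) := by
    apply continuous_finsetProd
    intro i _
    exact (tup_cont_AA _ _).norm.pow 2
  have hn : ∀ t : ℝ, 0 ≤ ∏ i ∈ univ.erase i0, ‖AA (tupCf χ i) (e i) t‖ ^ 2 := fun t =>
    Finset.prod_nonneg (fun i _ => by positivity)
  calc ∫ t in G, ‖PP χ e t‖ ^ 2
      ≤ ∫ t in G, δ ^ 2 * ∏ i ∈ univ.erase i0, ‖AA (tupCf χ i) (e i) t‖ ^ 2 := by
        apply setIntegral_mono_on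
        · exact (tup_int _ ((tup_cont_PP χ e).norm.pow 2) a T).mono_set hGs
        · exact (tup_int _ (continuous_const.mul hc) a T).mono_set hGs
        · exact hGm
        · intro t ht
          rw [tup_PP, ← Finset.mul_prod_erase univ _ (mem_univ i0)]
          have h1 := hδ t ht
          have h2 := hn t
          gcongr
    _ = δ ^ 2 * ∫ t in G, ∏ i ∈ univ.erase i0, ‖AA (tupCf χ i) (e i) t‖ ^ 2 := by
        rw [integral_const_mul]
    _ ≤ δ ^ 2 * ∫ t in tupR a T, ∏ i ∈ univ.erase i0, ‖AA (tupCf χ i) (e i) t‖ ^ 2 := by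
        have h1 : ∫ t in G, ∏ i ∈ univ.erase i0, ‖AA (tupCf χ i) (e i) t‖ ^ 2 ≤
            ∫ t in tupR a T, ∏ i ∈ univ.erase i0, ‖AA (tupCf χ i) (e i) t‖ ^ 2 := by
          apply setIntegral_mono_set
          · exact tup_int _ hc a T
          · exact Filter.Eventually.of_forall hn
          · exact hGs.eventuallyLE
        gcongr
    _ ≤ δ ^ 2 * M := by
        gcongr
        exact (tup_le_int _ hc hn a T hT).trans hM

theorem tg_pow (X : ℕ) (η : ℝ) (r : ℝ) (k : ℕ) (h : r = η / 400 * k) :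
    (X : ℝ) ^ r = ((X : ℝ) ^ (η / 400)) ^ k := by
  rw [← Real.rpow_natCast, ← Real.rpow_mul (Nat.cast_nonneg _), h]

/-- final numerical step -/
theorem tg_fin {p L : ℝ} (hL : 200 ≤ L) {m N k : ℕ} (hp : 1 ≤ p) (hN : L ^ N ≤ p) (hm : m + 1 ≤ N)
    (hk : 11 ≤ k) : 144 * L ^ m / p ^ k ≤ 1 / p ^ 10 := by
  have hL1 : 1 ≤ L := by linarith
  have hp0 : 0 < p := by linarith
  have h1 : 144 * L ^ m ≤ p := by
    calc 144 * L ^ m ≤ L * L ^ m := by gcongr; linarith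
      _ = L ^ (m + 1) := by rw [pow_succ, mul_comm]
      _ ≤ L ^ N := pow_le_pow_right₀ hL1 hm
      _ ≤ p := hN
  rw [div_le_div_iff₀ (by positivity) (by positivity), one_mul]
  calc 144 * L ^ m * p ^ 10 ≤ p * p ^ 10 := by gcongr
    _ = p ^ 11 := by ring
    _ ≤ p ^ k := pow_le_pow_right₀ hp hk

theorem tg_num1 {p T Y X : ℝ} (hp1 : 1 ≤ p) (hT0 : 0 ≤ T) (hY0 : 0 < Y) (hXp : 0 < X)
    (hTT : T * T = 4 * X * p ^ 2) (hTY : T / Y ≤ 2 / p ^ 19) :
  (T / Y) ^ 2 * (T * Y / X + 1) ≤ 12 / p ^ 17 := by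
  have hp0 : 0 < p := by linarith
  have h5 : (T / Y) ^ 2 * (T * Y / X) = (T / Y) * (4 * p ^ 2) := by
    have : (T / Y) ^ 2 * (T * Y / X) = (T / Y) * (T * T / X) := by
      field_simp
    rw [this, hTT]
    field_simp
  have hTYn : 0 ≤ T / Y := by positivity
  have hTY2 : T / Y ≤ 2 * p ^ 2 := by
    refine hTY.trans ?_
    have h6 : 2 / p ^ 19 ≤ 2 := div_le_self (by norm_num) (one_le_pow₀ hp1)
    have h7 : (1 : ℝ) ≤ p ^ 2 := one_le_pow₀ hp1
    linarith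
  calc (T / Y) ^ 2 * (T * Y / X + 1) = (T / Y) ^ 2 * (T * Y / X) + (T / Y) * (T / Y) := by ring
    _ ≤ (T / Y) * (4 * p ^ 2) + (T / Y) * (2 * p ^ 2) := by
        rw [h5]
        gcongr
    _ = (T / Y) * (6 * p ^ 2) := by ring
    _ ≤ (2 / p ^ 19) * (6 * p ^ 2) := by gcongr
    _ = 12 / p ^ 17 := by field_simp; norm_num


theorem tg_num2 {p L a : ℝ} {N : ℕ} (hL200 : 200 ≤ L) (hp1 : 1 ≤ p) (hLp : L ^ N ≤ p) (hN : 30 ≤ N)
    (ha : a = p ^ 40 / 2) : 2 * (L ^ 3 * p) ^ 2 * L ^ 4 * (8 / a) ≤ 1 / p ^ 10 / 2 := by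
  have hp0 : 0 < p := by linarith
  have hL0 : 0 < L := by linarith
  have h5 : 2 * (L ^ 3 * p) ^ 2 * L ^ 4 * (8 / a) = 32 * L ^ 10 / p ^ 38 := by
    rw [ha]
    field_simp
    norm_num
  rw [h5]
  have h6 := tg_fin hL200 hp1 hLp (m := 10) (k := 38) (by omega) (by norm_num)
  calc 32 * L ^ 10 / p ^ 38 ≤ (144 * L ^ 10 / p ^ 38) / 2 := by
        rw [div_div, mul_comm (p ^ 38) 2, ← div_div]
        gcongr
        have : 0 ≤ L ^ 10 := by positivity
        linarith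
    _ ≤ 1 / p ^ 10 / 2 := by gcongr


theorem tg_num3 {p L T Y X : ℝ} {C : ℕ} (hL200 : 200 ≤ L) (hp1 : 1 ≤ p)
    (hLp : L ^ (30 + 2 * C) ≤ p)
    (hmain : (T / Y) ^ 2 * (T * Y / X + 1) ≤ 12 / p ^ 17) :
    2 * (L ^ 3 * p) ^ 2 * (T / Y) ^ 2 * (L ^ (17 + 2 * C) * (T * Y / X + 1)) ≤
          1 / p ^ 10 / 2 := by
  have hp0 : 0 < p := by linarith
  have hL0 : 0 < L := by linarith
  have h6 := tg_fin hL200 hp1 hLp (m := 23 + 2 * C) (k := 15) (by omega) (by norm_num)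
  calc 2 * (L ^ 3 * p) ^ 2 * (T / Y) ^ 2 * (L ^ (17 + 2 * C) * (T * Y / X + 1))
      = 2 * (L ^ 3 * p) ^ 2 * L ^ (17 + 2 * C) * ((T / Y) ^ 2 * (T * Y / X + 1)) := by ring
    _ ≤ 2 * (L ^ 3 * p) ^ 2 * L ^ (17 + 2 * C) * (12 / p ^ 17) := by gcongr
    _ = (144 * L ^ (23 + 2 * C) / p ^ 15) * (1 / 6) := by
        have : L ^ (23 + 2 * C) = L ^ 6 * L ^ (17 + 2 * C) := by
          rw [← pow_add]; congr 1; omega
        rw [this]
        field_simp
        ring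
    _ ≤ (1 / p ^ 10) * (1 / 6) := by gcongr
    _ ≤ 1 / p ^ 10 / 2 := by
        have : 0 < 1 / p ^ 10 := by positivity
        linarith


theorem tg_W (hSu0 : StSu0) {q : ℕ} (χ : DirichletCharacter ℂ q) (e : Fin 4 → ℕ) (L : ℝ) (hL1 : 1 ≤ L)
    (hei : ∀ i, 1 + (e i : ℝ) ≤ L ^ 2) (i0 : Fin 4) (t : ℝ) :
    ∏ i ∈ univ.erase i0, ‖AA (tupCf χ i) (e i) t‖ ^ 2 ≤ L ^ 4 := by
  have hb : ∀ i : Fin 4, ‖AA (tupCf χ i) (e i) t‖ ^ 2 ≤ if i = 2 then L ^ 4 else 1 := by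
    intro i
    fin_cases i
    · have := (hSu0 q χ (e 0) t).1
      simpa [tupCf] using pow_le_one₀ (n := 2) (norm_nonneg _) this
    · have := (hSu0 q χ (e 1) t).1
      simpa [tupCf] using pow_le_one₀ (n := 2) (norm_nonneg _) this
    · have h5 := ((hSu0 q χ (e 2) t).2.2).trans (hei 2)
      have h6 := pow_le_pow_left₀ (norm_nonneg _) h5 2
      rw [← pow_mul] at h6
      simpa [tupCf] using h6
    · have := (hSu0 q χ (e 3) t).2.1
      simpa [tupCf] using pow_le_one₀ (n := 2) (norm_nonneg _) this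
  have h4 : (1 : ℝ) ≤ L ^ 4 := one_le_pow₀ hL1
  have hb1 : ∀ i : Fin 4, (1 : ℝ) ≤ if i = 2 then L ^ 4 else 1 := by
    intro i
    split_ifs
    · exact h4
    · exact le_refl _
  have hp : ∏ i : Fin 4, (if i = 2 then L ^ 4 else (1 : ℝ)) = L ^ 4 := by
    simp
  calc ∏ i ∈ univ.erase i0, ‖AA (tupCf χ i) (e i) t‖ ^ 2
      ≤ ∏ i ∈ univ.erase i0, (if i = 2 then L ^ 4 else (1 : ℝ)) :=
        Finset.prod_le_prod (fun i _ => by positivity) (fun i _ => hb i)
    _ ≤ (if i0 = 2 then L ^ 4 else (1 : ℝ)) *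
        ∏ i ∈ univ.erase i0, (if i = 2 then L ^ 4 else (1 : ℝ)) := by
        have h0 : 0 ≤ ∏ i ∈ univ.erase i0, (if i = 2 then L ^ 4 else (1 : ℝ)) :=
          Finset.prod_nonneg (fun i _ => by linarith [hb1 i])
        have := hb1 i0
        nlinarith
    _ = L ^ 4 := by
        rw [Finset.mul_prod_erase univ (fun i : Fin 4 => if i = 2 then L ^ 4 else (1 : ℝ))
          (mem_univ i0), hp]

theorem hTg (hMea : StMea) (hSu0 : StSu0) (hSu2 : StSu2) (hSu3 : StSu3)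
    (hFin : StFin) (hAam : StAam) : StTg := by
  obtain ⟨C, hC⟩ := hMea
  obtain ⟨C2, c0, hC2, hc0, X2, h2⟩ := hSu2
  obtain ⟨C3, hC3, h3⟩ := hSu3
  obtain ⟨η₁, hη₁, hη₁', hA⟩ := hAam
  refine ⟨min η₁ (min c0 (1 / 100)), lt_min hη₁ (lt_min hc0 (by norm_num)),
    (min_le_right _ _).trans (min_le_right _ _), ?_⟩
  intro η hη hηle
  have hηA : η ≤ η₁ := hηle.trans (min_le_left _ _)
  have hηc : η ≤ c0 := hηle.trans ((min_le_right _ _).trans (min_le_left _ _))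
  have hη100 : η ≤ 1 / 100 := hηle.trans ((min_le_right _ _).trans (min_le_right _ _))
  obtain ⟨XA, hXA2, hA⟩ := hA η hη hηA
  obtain ⟨X3, hX3⟩ := tup_large (30 + 2 * C) 0 (200 + C + C2 + C3) (η / 400) (by positivity)
  refine ⟨⌈XA⌉₊ + X2 + X3 + 2, by omega, ?_⟩
  intro X c e hX hr he0 he1 hs1 hs2
  obtain ⟨hL0, -, hXc, hX64⟩ := hX3 X (by omega)
  set L := Real.log X with hLdef
  have hCn : (0 : ℝ) ≤ C := Nat.cast_nonneg _
  have hL200 : 200 ≤ L := by linarith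
  have hL1 : 1 ≤ L := by linarith
  have hLC : (C : ℝ) ≤ L := by linarith
  have hLC2 : C2 ≤ L := by linarith
  have hLC3 : C3 ≤ L := by linarith
  have hXp : (0 : ℝ) < X := by
    have : (64 : ℝ) ≤ X := by exact_mod_cast hX64
    linarith
  have hX1 : (1 : ℝ) ≤ X := by
    have : (64 : ℝ) ≤ X := by exact_mod_cast hX64
    linarith
  have hsq : √(X : ℝ) * √X = X := Real.mul_self_sqrt (Nat.cast_nonneg _)
  have hsq0 : 1 ≤ √(X : ℝ) := by
    rw [Real.one_le_sqrt]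
    exact hX1
  -- powers of X
  obtain ⟨p, hp⟩ : ∃ p : ℝ, p = (X : ℝ) ^ (η / 400) := ⟨_, rfl⟩
  have hp1 : 1 ≤ p := by rw [hp]; exact Real.one_le_rpow hX1 (by positivity)
  have hp0 : 0 < p := by linarith
  have hLp : L ^ (30 + 2 * C) ≤ p := by
    rw [Real.rpow_neg hXp.le, ← hp, inv_eq_one_div, div_le_div_iff₀ hp0 (by positivity)] at hXc
    linarith
  have hp40 : (X : ℝ) ^ (η / 10) = p ^ 40 := by
    rw [hp]; exact tg_pow X η _ 40 (by push_cast; ring)
  have hp10 : (X : ℝ) ^ (-(η / 40)) = 1 / p ^ 10 := by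
    rw [Real.rpow_neg hXp.le, hp, tg_pow X η (η / 40) 10 (by push_cast; ring), inv_eq_one_div]
  have hp16 : (X : ℝ) ^ (-(η / 25)) = 1 / p ^ 16 := by
    rw [Real.rpow_neg hXp.le, hp, tg_pow X η (η / 25) 16 (by push_cast; ring), inv_eq_one_div]
  have hTeq : 2 * (X : ℝ) ^ (1 / 2 + η / 400) = 2 * √X * p := by
    rw [Real.rpow_add hXp, ← hp, Real.sqrt_eq_rpow]; ring
  have hpsq : 4 * p ≤ √(X : ℝ) := by
    have h5 : p ≤ (X : ℝ) ^ (1 / 4 : ℝ) := by
      rw [hp]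
      exact Real.rpow_le_rpow_of_exponent_le hX1 (by linarith)
    have h6 : (4 : ℝ) ≤ (X : ℝ) ^ (1 / 4 : ℝ) := by
      rw [Real.rpow_def_of_pos hXp, ← hLdef]
      have := Real.add_one_le_exp (L * (1 / 4))
      linarith
    have h7 : √(X : ℝ) = (X : ℝ) ^ (1 / 4 : ℝ) * (X : ℝ) ^ (1 / 4 : ℝ) := by
      rw [Real.sqrt_eq_rpow, ← Real.rpow_add hXp]
      norm_num
    rw [h7]
    gcongr
  rw [hp40, hp10, hTeq]
  rw [← hp] at hr
  obtain ⟨a, ha⟩ : ∃ a : ℝ, a = p ^ 40 / 2 := ⟨_, rfl⟩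
  obtain ⟨T, hT⟩ : ∃ T : ℝ, T = 2 * √X * p := ⟨_, rfl⟩
  rw [← ha, ← hT]
  change ∫ t in tgR c η X a T, ‖PP c.χ e t‖ ^ 2 ≤ 1 / p ^ 10
  have hp2 : 200 ≤ p := by
    refine le_trans ?_ hLp
    calc (200 : ℝ) ≤ L := hL200
      _ = L ^ 1 := (pow_one L).symm
      _ ≤ L ^ (30 + 2 * C) := pow_le_pow_right₀ hL1 (by omega)
  have ha1 : 1 ≤ a := by
    rw [ha, le_div_iff₀ (by norm_num)]
    calc (1 : ℝ) * 2 ≤ p := by linarith
      _ = p ^ 1 := (pow_one p).symm
      _ ≤ p ^ 40 := pow_le_pow_right₀ hp1 (by norm_num)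
  have ha0 : 0 < a := by linarith
  have hT1 : 1 ≤ T := by
    rw [hT]
    nlinarith
  have hT0 : 0 ≤ T := by linarith
  have hTX2 : T ≤ X / 2 := by
    have h5 := mul_le_mul_of_nonneg_left hpsq (Real.sqrt_nonneg (X : ℝ))
    rw [hT]
    linarith
  have hTXX : T ≤ X := by linarith
  have hq1 : (1 : ℝ) ≤ c.r := by exact_mod_cast (Nat.pos_of_ne_zero c.hr)
  have hsum : 1 + ∑ i, (e i : ℝ) ≤ L ^ 2 := by
    have ha : ((2 : ℝ) ^ (∑ i, e i)) ≤ 64 * X := by exact_mod_cast hs2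
    have hb := Real.log_le_log (by positivity) ha
    rw [Real.log_pow, Real.log_mul (by norm_num) hXp.ne'] at hb
    have hc6 : Real.log 64 = 6 * Real.log 2 := by
      rw [show (64 : ℝ) = 2 ^ 6 by norm_num, Real.log_pow]
      norm_num
    rw [hc6] at hb
    have hd := Real.log_two_gt_d9
    have he := Real.log_two_lt_d9
    push_cast at hb
    have hn : (0 : ℝ) ≤ ∑ i, (e i : ℝ) := Finset.sum_nonneg (fun i _ => Nat.cast_nonneg _)
    have hf : (0.69 : ℝ) * ∑ i, (e i : ℝ) ≤ (∑ i, (e i : ℝ)) * Real.log 2 := by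
      rw [mul_comm]
      gcongr
      linarith
    nlinarith
  have hei : ∀ i, 1 + (e i : ℝ) ≤ L ^ 2 := fun i => by
    have := Finset.single_le_sum (f := fun i => (e i : ℝ)) (fun i _ => Nat.cast_nonneg _)
      (mem_univ i)
    linarith
  obtain ⟨i0, -, hi0⟩ := Finset.exists_max_image univ e ⟨0, mem_univ 0⟩
  obtain ⟨Y, hY⟩ : ∃ Y : ℝ, Y = 2 ^ (e i0) := ⟨_, rfl⟩
  have hY1 : 1 ≤ Y := by rw [hY]; exact one_le_pow₀ (by norm_num)
  have hY0 : 0 < Y := by linarith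
  have hY4 : (X : ℝ) ≤ Y ^ 4 := by
    have ha : ∑ i, e i ≤ e i0 * 4 := by
      have hb : ∑ i, e i ≤ #(univ : Finset (Fin 4)) • e i0 :=
        Finset.sum_le_card_nsmul univ e (e i0) (fun i hi => hi0 i hi)
      rw [Finset.card_univ, Fintype.card_fin, smul_eq_mul] at hb
      omega
    calc (X : ℝ) ≤ 2 ^ (∑ i, e i) := by exact_mod_cast hs1
      _ ≤ 2 ^ (e i0 * 4) := pow_le_pow_right₀ (by norm_num) ha
      _ = Y ^ 4 := by rw [hY, pow_mul]
  have hY4' : (X : ℝ) ^ (1 / 4 : ℝ) ≤ 2 ^ (e i0) := by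
    rw [← hY]
    calc (X : ℝ) ^ (1 / 4 : ℝ) ≤ (Y ^ 4) ^ (1 / 4 : ℝ) := by
          apply Real.rpow_le_rpow hXp.le hY4 (by norm_num)
      _ = Y := by
          rw [← Real.rpow_natCast, ← Real.rpow_mul hY0.le]
          norm_num
  have hY5 : (X : ℝ) ^ (1 / 5 : ℝ) ≤ 2 ^ (e i0) :=
    (Real.rpow_le_rpow_of_exponent_le hX1 (by norm_num)).trans hY4'
  have hYX : 2 ^ (e i0) ≤ X ^ 2 := by
    have ha : e i0 ≤ ∑ i, e i := Finset.single_le_sum (fun i _ => Nat.zero_le _) (mem_univ i0)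
    calc 2 ^ (e i0) ≤ 2 ^ (∑ i, e i) := Nat.pow_le_pow_right (by norm_num) ha
      _ ≤ 64 * X := hs2
      _ ≤ X * X := by gcongr
      _ = X ^ 2 := by ring
  have hYX' : (2 : ℝ) ^ (e i0) ≤ (X : ℝ) ^ 2 := by exact_mod_cast hYX
  have hTT : T * T = 4 * X * p ^ 2 := by
    rw [hT]
    calc _ = 4 * (√X * √X) * p ^ 2 := by ring
      _ = _ := by rw [hsq]
  have hM := tup_mean hC c.χ e i0 X (by omega) L T hT1 hL1 hsum hLC (by exact_mod_cast hs1)
  rw [← hY] at hM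
  have hsub := tgR_sub c η X a T
  by_cases hi : i0 = 0 ∨ i0 = 1
  · -- Moebius blocks
    have hcf : tupCf c.χ i0 = cmu c.χ := by
      rcases hi with rfl | rfl <;> rfl
    have hY2 : Y ≤ 4 * √X := by
      rw [hY]
      rcases hi with rfl | rfl
      · exact he0
      · exact he1
    have hδ : ∀ t ∈ tgR c η X a T, ‖AA (tupCf c.χ i0) (e i0) t‖ ≤ 4 * (1 / p ^ 16) := by
      intro t ht
      obtain ⟨ht1, ht2, ht3⟩ := ht
      rw [hcf]
      have h5 := hA X c t (e i0) (by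
        have : XA ≤ ⌈XA⌉₊ := Nat.le_ceil _
        have h6 : (⌈XA⌉₊ : ℝ) ≤ X := by exact_mod_cast (by omega : ⌈XA⌉₊ ≤ X)
        linarith) (by rw [← hp]; exact hr) (ht2.trans hTX2)
      rw [hp40, hp16] at h5
      apply h5
      · intro _
        have : p ^ 40 / 4 ≤ p ^ 40 / 2 := by
          have : 0 < p ^ 40 := by positivity
          linarith
        rw [ha] at ht1
        linarith
      · intro ρ hρ0 hρ1
        by_cases hρX : |ρ.im| ≤ X
        · have hρF : ρ ∈ ZF c (2 * η) X := (hFin.2.1 c (2 * η) X ρ (by linarith)).2 ⟨hρ0, hρ1, hρX⟩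
          have h6 := ht3 ρ hρF
          rw [ha] at h6
          have : 0 < p ^ 40 := by positivity
          linarith
        · rw [not_le] at hρX
          have h6 : |ρ.im| - |t| ≤ |ρ.im - t| := abs_sub_abs_le_abs_sub _ _
          have h7 : p ^ 40 ≤ X := by
            rw [← hp40]
            calc (X : ℝ) ^ (η / 10) ≤ (X : ℝ) ^ (1 : ℝ) :=
                  Real.rpow_le_rpow_of_exponent_le hX1 (by linarith)
              _ = X := Real.rpow_one _
          have h8 := ht2.trans hTX2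
          have : 0 < p ^ 40 := by positivity
          linarith
      · exact hY4'
      · exact hYX'
    have hb := tg_sup c.χ e i0 (tgR c η X a T) (tgR_meas c η X a T) a T _ _ hsub hT0 hδ hM
    refine hb.trans ?_
    have hTY : T * Y / X + 1 ≤ 9 * p := by
      have h5 : T * Y / X ≤ 8 * p := by
        rw [div_le_iff₀ hXp]
        calc T * Y ≤ T * (4 * √X) := by gcongr
          _ = 8 * p * (√X * √X) := by rw [hT]; ring
          _ = 8 * p * X := by rw [hsq]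
      linarith
    calc (4 * (1 / p ^ 16)) ^ 2 * (L ^ (17 + 2 * C) * (T * Y / X + 1))
        ≤ (4 * (1 / p ^ 16)) ^ 2 * (L ^ (17 + 2 * C) * (9 * p)) := by gcongr
      _ = 144 * L ^ (17 + 2 * C) / p ^ 31 := by
          field_simp
          ring
      _ ≤ 1 / p ^ 10 := tg_fin hL200 hp1 hLp (by omega) (by norm_num)
  · -- smooth blocks
    have hi23 : i0 = 2 ∨ i0 = 3 := by
      have hdec : ∀ j : Fin 4, ¬ (j = 0 ∨ j = 1) → j = 2 ∨ j = 3 := by decide
      exact hdec i0 hi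
    refine (tg_mono c.χ e a T _ hsub).trans ?_
    by_cases hYD : Y ≤ √X * p ^ 20
    · have hδ : ∀ t, a ≤ |t| → |t| ≤ T →
          ‖AA (tupCf c.χ i0) (e i0) t‖ ≤ 3 * L ^ 2 / p ^ 38 := by
        intro t ht1 ht2
        have h5 := h2 X (by omega) c.r c.χ (e i0) t hY5 hYX (ha1.trans ht1) (ht2.trans hTXX)
        have ht0 : 0 < |t| := lt_of_lt_of_le ha0 ht1
        have h6 : 1 / |t| + (X : ℝ) ^ (-c0) ≤ 3 / p ^ 40 := by
          have h7 : 1 / |t| ≤ 1 / a := one_div_le_one_div_of_le ha0 ht1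
          have h8 : 1 / a = 2 / p ^ 40 := by rw [ha]; field_simp
          have h9 : (X : ℝ) ^ (-c0) ≤ 1 / p ^ 40 := by
            rw [← hp40, ← inv_eq_one_div, ← Real.rpow_neg hXp.le]
            exact Real.rpow_le_rpow_of_exponent_le hX1 (by linarith)
          calc 1 / |t| + (X : ℝ) ^ (-c0) ≤ 2 / p ^ 40 + 1 / p ^ 40 := by
                rw [← h8]
                gcongr
            _ = 3 / p ^ 40 := by ring
        have h0 : 0 ≤ 1 / |t| + (X : ℝ) ^ (-c0) := by positivity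
        have h9 : C2 * c.r ^ 2 * L * (1 / |t| + (X : ℝ) ^ (-c0)) ≤ 3 * L ^ 2 / p ^ 38 := by
          calc C2 * c.r ^ 2 * L * (1 / |t| + (X : ℝ) ^ (-c0))
              ≤ L * p ^ 2 * L * (3 / p ^ 40) := by gcongr
            _ = 3 * L ^ 2 / p ^ 38 := by
                field_simp
        rcases hi23 with rfl | rfl
        · exact h5.2.trans h9
        · refine h5.1.trans (le_trans ?_ h9)
          calc C2 * c.r ^ 2 * (1 / |t| + (X : ℝ) ^ (-c0))
              = C2 * c.r ^ 2 * 1 * (1 / |t| + (X : ℝ) ^ (-c0)) := by ring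
            _ ≤ C2 * c.r ^ 2 * L * (1 / |t| + (X : ℝ) ^ (-c0)) := by gcongr
      have hb := tup_sup c.χ e i0 a T _ _ hT0 hδ hM
      refine hb.trans ?_
      have hTY : T * Y / X + 1 ≤ 3 * p ^ 21 := by
        have h5 : T * Y / X ≤ 2 * p ^ 21 := by
          rw [div_le_iff₀ hXp]
          calc T * Y ≤ T * (√X * p ^ 20) := by gcongr
            _ = 2 * p ^ 21 * (√X * √X) := by rw [hT]; ring
            _ = 2 * p ^ 21 * X := by rw [hsq]
        have h6 : (1 : ℝ) ≤ p ^ 21 := one_le_pow₀ hp1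
        linarith
      calc (3 * L ^ 2 / p ^ 38) ^ 2 * (L ^ (17 + 2 * C) * (T * Y / X + 1))
          ≤ (3 * L ^ 2 / p ^ 38) ^ 2 * (L ^ (17 + 2 * C) * (3 * p ^ 21)) := by gcongr
        _ = 27 * L ^ (21 + 2 * C) / p ^ 55 := by
            have : L ^ (21 + 2 * C) = L ^ 4 * L ^ (17 + 2 * C) := by
              rw [← pow_add]; congr 1; omega
            rw [this]
            field_simp
            ring
        _ ≤ 144 * L ^ (21 + 2 * C) / p ^ 55 := by gcongr; norm_num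
        _ ≤ 1 / p ^ 10 := tg_fin hL200 hp1 hLp (by omega) (by norm_num)
    · rw [not_le] at hYD
      have hQ : ∀ t, a ≤ |t| → |t| ≤ T →
          ‖AA (tupCf c.χ i0) (e i0) t‖ ≤ (L ^ 3 * p) * (1 / |t| + |t| / Y) := by
        intro t ht1 ht2
        have ht0 : 0 < |t| := lt_of_lt_of_le ha0 ht1
        have h5 := h3 c.r c.χ (e i0) t (ha1.trans ht1)
        rw [← hY] at h5
        have h9 : C3 * c.r * (1 + e i0) * (1 / |t| + |t| / Y) ≤
            (L ^ 3 * p) * (1 / |t| + |t| / Y) := by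
          calc C3 * c.r * (1 + e i0) * (1 / |t| + |t| / Y)
              ≤ L * p * L ^ 2 * (1 / |t| + |t| / Y) := by
                gcongr
                exact hei i0
            _ = (L ^ 3 * p) * (1 / |t| + |t| / Y) := by ring
        rcases hi23 with rfl | rfl
        · exact h5.2.trans h9
        · refine h5.1.trans (le_trans ?_ h9)
          calc C3 * c.r * (1 / |t| + |t| / Y) = C3 * c.r * 1 * (1 / |t| + |t| / Y) := by ring
            _ ≤ C3 * c.r * (1 + e 3) * (1 / |t| + |t| / Y) := by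
                gcongr
                have : (0 : ℝ) ≤ e 3 := Nat.cast_nonneg _
                linarith
      have hW := tg_W hSu0 c.χ e L hL1 hei i0
      have hb := tup_long c.χ e i0 a T (L ^ 3 * p) Y (L ^ 4) _ ha0 hT0 (by positivity) hY0
        (by positivity) hQ hW hM
      refine hb.trans ?_
      have hTY : T / Y ≤ 2 / p ^ 19 := by
        rw [div_le_div_iff₀ hY0 (by positivity)]
        calc T * p ^ 19 = 2 * (√X * p ^ 20) := by rw [hT]; ring
          _ ≤ 2 * Y := by gcongr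
      have hmain := tg_num1 hp1 hT0 hY0 hXp hTT hTY
      have hA1 := tg_num2 (a := a) hL200 hp1 hLp (by omega) ha
      have hA2 := tg_num3 (T := T) (Y := Y) (X := X) hL200 hp1 hLp hmain
      linarith

end Pool.Agent.Helper42.MV
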